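import Pool.Agent.NH25.UF.All
import Pool.Agent.NH25.CV.Stm3

/-!
# Algebraic independence in bounded degree
-/

set_option autoImplicit false

open Module

namespace Pool.Agent.NH25.CT

open Pool.Agent.NH25.DG Pool.Agent.NH25.UF Pool.Agent.NH25.CV Pool.Agent.Y916

variable {τ : Type}

/-- no relation of degree at most `δ` over a number field of degree at most `D` -/
def NoRel (D δ : ℕ) (y : τ → ℂ) : Prop :=
  ∀ K : IntermediateField ℚ ℂ, FiniteDimensional ℚ K → finrank ℚ K ≤ D → ∀ F : MvPolynomial τ K, F.totalDegree ≤ δ →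
    MvPolynomial.aeval y F = 0 → F = 0

/-- no relation over `ℚ̄[z]` on the polydisc of radius `r` -/
def IndR {k : ℕ} (P : (Fin k → ℂ) → τ → ℂ) (r : ℝ) : Prop :=
  ∀ G : MvPolynomial τ (MvPolynomial (Fin k) Qb), (∀ z : Fin k → ℂ, (∀ l, ‖z l‖ < r) →
    G.eval₂ (MvPolynomial.aeval z : MvPolynomial (Fin k) Qb →ₐ[Qb] ℂ).toRingHom (P z) = 0) → G = 0

theorem deg_map_le {A B : Type} [CommSemiring A] [CommSemiring B] (f : A →+* B) (F : MvPolynomial τ A) :
    (F.map f).totalDegree ≤ F.totalDegree :=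
  Finset.sup_mono (MvPolynomial.support_map_subset _ _)

/-- **The norm argument.** -/
theorem noRel_of [Fintype τ] {y : τ → ℂ} {D δ : ℕ} (κ₀ : IntermediateField ℚ ℂ)
    (h : ∀ N : MvPolynomial τ ℂ, N.totalDegree ≤ D * δ → (∀ e, N.coeff e ∈ κ₀) → MvPolynomial.aeval y N = 0 → N = 0) :
    NoRel D δ y := by
  classical
  intro K hK hKD F hF h0
  have hle : K ≤ Qb := le_algebraicClosure ℚ ℂ K
  set E : IntermediateField ℚ Qb := IntermediateField.restrict hle with hE
  have hEe := IntermediateField.restrict_algEquiv hle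
  have hEf : FiniteDimensional ℚ E := hEe.toLinearEquiv.finiteDimensional
  have hED : finrank ℚ E ≤ D := (le_of_eq hEe.toLinearEquiv.finrank_eq.symm).trans hKD
  set F₁ : MvPolynomial τ Qb := F.map (IntermediateField.inclusion hle : K →+* Qb) with hF₁
  have hFc : ∀ e, F₁.coeff e ∈ E ⊔ (⊥ : IntermediateField ℚ Qb) := by
    intro e
    rw [sup_bot_eq, hF₁, MvPolynomial.coeff_map]
    exact (IntermediateField.mem_restrict hle _).2 (F.coeff e).2
  have hQc : IsAlgClosure ℚ Qb := @algebraicClosure.isAlgClosure ℚ ℂ _ _ _ _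
  obtain ⟨n, σ, hn, ⟨i, hi⟩, hc⟩ := exists_norm (k₀ := ℚ) (Q := Qb) (τ := τ) ⊥ E inferInstance hEf hED F₁ hFc
  set N₁ : MvPolynomial τ Qb := ∏ i, F₁.map ((σ i : Qb ≃ₐ[(⊥ : IntermediateField ℚ Qb)] Qb) : Qb →+* Qb) with hN₁
  have hFF : F₁.map (algebraMap Qb ℂ) = F.map (algebraMap K ℂ) := by
    rw [hF₁, MvPolynomial.map_map]
    rfl
  have hy : MvPolynomial.aeval y (N₁.map (algebraMap Qb ℂ)) = 0 := by
    rw [hN₁, map_prod, map_prod]
    refine Finset.prod_eq_zero (Finset.mem_univ i) ?_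
    rw [hi, hFF, MvPolynomial.aeval_map_algebraMap]
    exact h0
  have hdeg : (N₁.map (algebraMap Qb ℂ)).totalDegree ≤ D * δ := by
    refine (deg_map_le _ _).trans ?_
    rw [hN₁]
    refine (MvPolynomial.totalDegree_finset_prod _ _).trans ?_
    refine (Finset.sum_le_card_nsmul _ _ δ fun j _ => ?_).trans ?_
    · exact (deg_map_le _ _).trans ((deg_map_le _ _).trans hF)
    · rw [Finset.card_univ, Fintype.card_fin, smul_eq_mul]
      exact Nat.mul_le_mul_right _ hn
  have hz := h _ hdeg (fun e => by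
    rw [MvPolynomial.coeff_map]
    obtain ⟨q, hq⟩ := IntermediateField.mem_bot.1 (hc e)
    rw [← hq]
    have h2 : algebraMap Qb ℂ (algebraMap ℚ Qb q) = algebraMap ℚ ℂ q := rfl
    rw [h2]
    exact κ₀.algebraMap_mem q) hy
  have hN0 : N₁ = 0 := MvPolynomial.map_injective _ (algebraMap Qb ℂ).injective (hz.trans (map_zero _).symm)
  rw [hN₁, Finset.prod_eq_zero_iff] at hN0
  obtain ⟨j, -, hj⟩ := hN0
  have h1 : F₁ = 0 := MvPolynomial.map_injective _ (RingHom.injective _) (hj.trans (map_zero _).symm)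
  exact MvPolynomial.map_injective _ (RingHom.injective (IntermediateField.inclusion hle : K →+* Qb))
    (h1.trans (map_zero _).symm)

theorem noRel_of_spec [Fintype τ] {k : ℕ} {P : (Fin k → ℂ) → τ → ℂ} {r : ℝ} (hP : IndR P r) {D δ : ℕ} {s : Fin k → ℂ}
    {κ : IntermediateField ℚ ℂ} (h : SpecQ κ P r (D * δ) s) : NoRel D δ (P s) := by
  refine noRel_of κ fun N hN hc h0 => ?_
  obtain ⟨G, -, hG, rfl⟩ := h N hN hc h0
  rw [hP G hG, map_zero]

/-- **Specialisation of a relation.** -/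
theorem exists_spec {k : ℕ} (G : MvPolynomial τ (MvPolynomial (Fin k) Qb)) (hG : G ≠ 0) :
    ∃ (L₁ : IntermediateField ℚ ℂ) (_ : FiniteDimensional ℚ L₁) (Δ : MvPolynomial (Fin k) Qb), Δ ≠ 0 ∧
      ∀ (s : Fin k → ℂ) (K : IntermediateField ℚ ℂ), L₁ ≤ K → (∀ l, s l ∈ K) → MvPolynomial.aeval s Δ ≠ 0 →
        ∃ F : MvPolynomial τ K, F ≠ 0 ∧ F.totalDegree ≤ G.totalDegree ∧
          F.map (algebraMap K ℂ) = G.map (MvPolynomial.aeval s : MvPolynomial (Fin k) Qb →ₐ[Qb] ℂ).toRingHom := by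
  classical
  obtain ⟨e₀, he₀⟩ := MvPolynomial.ne_zero_iff.1 hG
  set S : Set ℂ := ⋃ e ∈ (G.support : Set (τ →₀ ℕ)), (fun e' => (((G.coeff e).coeff e' : Qb) : ℂ)) ''
    ((G.coeff e).support : Set (Fin k →₀ ℕ)) with hS
  have hSf : S.Finite := (G.support.finite_toSet).biUnion fun e _ => ((G.coeff e).support.finite_toSet.image _)
  have := hSf.to_subtype
  have hL : FiniteDimensional ℚ (IntermediateField.adjoin ℚ S) := by
    refine IntermediateField.finiteDimensional_adjoin fun x hx => ?_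
    obtain ⟨e, he, e', he', rfl⟩ := Set.mem_iUnion₂.1 hx
    exact (mem_algebraicClosure_iff.1 ((G.coeff e).coeff e').2).isIntegral
  refine ⟨IntermediateField.adjoin ℚ S, hL, G.coeff e₀, he₀, fun s K hLK hs hΔ => ?_⟩
  have hcoef : ∀ e e', (((G.coeff e).coeff e' : Qb) : ℂ) ∈ K := by
    intro e e'
    by_cases he : e ∈ G.support
    · by_cases he' : e' ∈ (G.coeff e).support
      · exact hLK (IntermediateField.subset_adjoin ℚ S (Set.mem_biUnion he ⟨e', he', rfl⟩))
      · rw [MvPolynomial.notMem_support_iff.1 he']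
        exact zero_mem _
    · rw [MvPolynomial.notMem_support_iff.1 he, MvPolynomial.coeff_zero]
      exact zero_mem _
  obtain ⟨F, hF1, hF2⟩ := exists_desc K
    (G.map (MvPolynomial.aeval s : MvPolynomial (Fin k) Qb →ₐ[Qb] ℂ).toRingHom) (fun e => by
      rw [MvPolynomial.coeff_map]
      exact mem_of_coeff K (G.coeff e) (hcoef e) hs)
  refine ⟨F, ?_, hF1.trans (deg_map_le _ _), hF2⟩
  rintro rfl
  have h1 := congrArg (fun P => MvPolynomial.coeff e₀ P) hF2
  simp only [map_zero, MvPolynomial.coeff_zero, MvPolynomial.coeff_map] at h1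
  exact hΔ h1.symm

/-- the degree of the field generated by a tuple -/
theorem finrank_adj {k : ℕ} {m : Fin k → ℕ} {T : ℝ} {β : Fin k → ℂ} (h : ∀ l, Sl.AInt (m l) T (β l)) :
    FiniteDimensional ℚ (IntermediateField.adjoin ℚ (Set.range β)) ∧
      finrank ℚ (IntermediateField.adjoin ℚ (Set.range β)) ≤ ∏ l, m l := by
  have hint : ∀ l, IsIntegral ℚ (β l) := fun l => by
    obtain ⟨g, g1, g2, g3, -⟩ := h l
    exact IsIntegral.tower_top (R := ℤ) ⟨g, g1, g3⟩
  refine ⟨fd_range hint, ?_⟩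
  obtain ⟨h1, h2⟩ := Qp_fin h
  rw [← adj_range hint] at h2
  exact h2

end Pool.Agent.NH25.CT
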